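import Mathlib

set_option autoImplicit false
open scoped ContDiff
open Polynomial

namespace Pool.Agent.Results.MP_4ba699_an.Counter

variable {k : ℕ}

/-- Derivative of `f` in the `i`-th coordinate direction. -/
noncomputable def pd (f : (Fin (k + 1) → ℝ) → ℝ) (i : Fin (k + 1)) (x : Fin (k + 1) → ℝ) : ℝ :=
  lineDeriv ℝ f x (Pi.single i 1)

/-- Shape operator `I⁻¹ II` of the graph of `f` over `x`, upward unit normal. -/
noncomputable def shape (f : (Fin (k + 1) → ℝ) → ℝ) (x : Fin (k + 1) → ℝ) :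
    Matrix (Fin (k + 1)) (Fin (k + 1)) ℝ :=
  (1 + Matrix.of fun i j => pd f i x * pd f j x)⁻¹ *
    Matrix.of fun i j => pd (pd f j) i x / √(1 + ∑ l, pd f l x ^ 2)

/-- `m`-th elementary symmetric function of the principal curvatures. -/
noncomputable def sigma (m : ℕ) (f : (Fin (k + 1) → ℝ) → ℝ) (x : Fin (k + 1) → ℝ) : ℝ :=
  (shape f x).charpoly.roots.esymm m

/-- `|y|²` for the point `x = (t, y)`. -/
def ysq (x : Fin (k + 1) → ℝ) : ℝ := ∑ j : Fin k, x j.succ ^ 2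

/-- The open box `0 < t < 1`, `|y| < 1`. -/
def Om (k : ℕ) : Set (Fin (k + 1) → ℝ) := {x | 0 < x 0 ∧ x 0 < 1 ∧ ysq x < 1}

/-- The glued function: `v (t, y)` for `t ≥ 0` and `u (-t, y)` for `t < 0`. -/
noncomputable def glue (u v : (Fin (k + 1) → ℝ) → ℝ) (x : Fin (k + 1) → ℝ) : ℝ :=
  if 0 ≤ x 0 then v x else u (Function.update x 0 (-x 0))

/-- `f` is infinitely differentiable on the whole space. -/
def Smooth (f : (Fin (k + 1) → ℝ) → ℝ) : Prop := ContDiff ℝ ∞ f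

noncomputable def F (a : ℝ) (G : ℝ → ℝ) (x : Fin (k + 1) → ℝ) : ℝ :=
  ysq x + a * (x 0 * ysq x ^ 2) + G (x 0)

def dl (i j : Fin (k + 1)) : ℝ := if j = i then 1 else 0

def q1 (i : Fin (k + 1)) (x : Fin (k + 1) → ℝ) : ℝ := ∑ j : Fin k, 2 * x j.succ * dl i j.succ

theorem hc (x : Fin (k + 1) → ℝ) (i j : Fin (k + 1)) :
    HasDerivAt (fun r : ℝ => (x + r • (Pi.single i 1 : Fin (k + 1) → ℝ)) j) (dl i j) 0 := by
  have : (fun r : ℝ => (x + r • (Pi.single i 1 : Fin (k + 1) → ℝ)) j) =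
      fun r => x j + r * dl i j := by
    funext r; simp [dl, Pi.single_apply]
  rw [this]
  simpa using ((hasDerivAt_id (0 : ℝ)).mul_const (dl i j)).const_add (x j)

theorem hq (x : Fin (k + 1) → ℝ) (i : Fin (k + 1)) :
    HasDerivAt (fun r : ℝ => ysq (x + r • (Pi.single i 1 : Fin (k + 1) → ℝ))) (q1 i x) 0 := by
  unfold ysq q1
  refine HasDerivAt.fun_sum fun j _ => ((hc x i j.succ).pow 2).congr_deriv ?_
  simp

theorem hq1 (x : Fin (k + 1) → ℝ) (i i' : Fin (k + 1)) :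
    HasDerivAt (fun r : ℝ => q1 i (x + r • (Pi.single i' 1 : Fin (k + 1) → ℝ)))
      (∑ j : Fin k, 2 * dl i' j.succ * dl i j.succ) 0 := by
  unfold q1
  exact HasDerivAt.fun_sum fun j _ => ((hc x i' j.succ).const_mul 2).mul_const _

theorem hG {G G' : ℝ → ℝ} (h : ∀ t, HasDerivAt G (G' t) t) (x : Fin (k + 1) → ℝ)
    (i : Fin (k + 1)) :
    HasDerivAt (fun r : ℝ => G ((x + r • (Pi.single i 1 : Fin (k + 1) → ℝ)) 0))
      (G' (x 0) * dl i 0) 0 := by
  have := (h ((x + (0 : ℝ) • (Pi.single i 1 : Fin (k + 1) → ℝ)) 0)).comp (0 : ℝ) (hc x i 0)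
  simpa [Function.comp_def] using this

theorem pd_F (a : ℝ) {G G' : ℝ → ℝ} (h : ∀ t, HasDerivAt G (G' t) t) (i : Fin (k + 1)) :
    pd (F a G) i = fun x => q1 i x + a * (dl i 0 * ysq x ^ 2 + x 0 * (2 * ysq x * q1 i x)) +
      G' (x 0) * dl i 0 := by
  funext x
  refine HasDerivAt.deriv ?_
  unfold F
  refine (((hq x i).add (((hc x i 0).mul ((hq x i).pow 2)).const_mul a)).add
    (hG h x i)).congr_deriv ?_
  simp

theorem pd2_F (a : ℝ) {G G' G'' : ℝ → ℝ} (h : ∀ t, HasDerivAt G (G' t) t)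
    (h' : ∀ t, HasDerivAt G' (G'' t) t) (i i' : Fin (k + 1)) (x : Fin (k + 1) → ℝ)
    (hx : ∀ j : Fin k, x j.succ = 0) :
    pd (pd (F a G) i) i' x =
      (∑ j : Fin k, 2 * dl i' j.succ * dl i j.succ) + G'' (x 0) * dl i' 0 * dl i 0 := by
  rw [pd_F a h]
  refine HasDerivAt.deriv ?_
  refine (((hq1 x i i').add (((((hq x i').pow 2).const_mul (dl i 0)).add
    ((hc x i' 0).mul (((hq x i').const_mul 2).mul (hq1 x i i')))).const_mul a)).add
    ((hG h' x i').mul_const _)).congr_deriv ?_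
  have h1 : ysq x = 0 := by simp [ysq, hx]
  have h2 : ∀ l, q1 l x = 0 := by simp [q1, hx]
  simp [h1, h2]

theorem glue1 (t : ℝ) : HasDerivAt expNegInvGlue
    ((X ^ 2 * (1 - derivative 1) : ℝ[X]).eval t⁻¹ * expNegInvGlue t) t := by
  simpa using expNegInvGlue.hasDerivAt_polynomial_eval_inv_mul 1 t

theorem smooth_F (a : ℝ) {G : ℝ → ℝ} (h : ContDiff ℝ ∞ G) :
    ContDiff ℝ ∞ (F a G : (Fin (k + 1) → ℝ) → ℝ) := by
  unfold F ysq
  fun_prop

theorem ysq_nonneg (x : Fin (k + 1) → ℝ) : 0 ≤ ysq x := Finset.sum_nonneg fun _ _ => sq_nonneg _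

theorem result (k : ℕ) (hk : 1 ≤ k) : ∃ u v : (Fin (k + 1) → ℝ) → ℝ,
    Smooth u ∧ Smooth v ∧
    (∀ x ∈ Om k, v x < u x ∧ 0 ≤ v x ∧ 0 < pd u 0 x) ∧
    (∀ x, x 0 = 0 → u x = v x) ∧ u 0 = 0 ∧ v 0 = 0 ∧ pd u 0 0 = 0 ∧
    (∀ m : ℕ, ∀ x : Fin (k + 1) → ℝ, ∀ x' ∈ Om k, (∀ j : Fin k, x j.succ = x' j.succ) →
      0 ≤ x 0 → u x = v x' → sigma m u x ≤ sigma m v x') ∧
    Smooth (glue u v) ∧
    (∀ ε > 0, ∃ x ∈ Om k, ‖x‖ < ε ∧ 0 < v x ∧ pd v 0 x < 0) := by
  have h0 : ∀ t : ℝ, HasDerivAt (fun _ : ℝ => (0 : ℝ)) ((fun _ : ℝ => (0 : ℝ)) t) t :=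
    fun t => hasDerivAt_const t 0
  have q0 : ∀ x : Fin (k + 1) → ℝ, q1 0 x = 0 := by
    intro x; simp [q1, dl, Fin.succ_ne_zero]
  have g0 : expNegInvGlue 0 = 0 := expNegInvGlue.zero
  refine ⟨F (1 / 2) expNegInvGlue, F (-1 / 2) (fun _ => 0), smooth_F _ expNegInvGlue.contDiff,
    smooth_F _ contDiff_const, fun x ⟨h1, h2, h3⟩ => ?_, fun x hx => by simp [F, hx],
    by simp [F, ysq], by simp [F, ysq], by simp [pd_F _ glue1, q0, ysq],
    fun m x x' ⟨h2, _, _⟩ hy h1 he => ?_, ?_, fun ε hε => ?_⟩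
  · have a1 := ysq_nonneg x
    have a2 := expNegInvGlue.pos_of_pos h1
    have a3 : 0 ≤ x 0 * ysq x ^ 2 := by positivity
    refine ⟨by simp only [F]; linarith, ?_, ?_⟩
    · simp only [F]
      have : x 0 * ysq x ≤ 1 := by nlinarith
      nlinarith
    · rw [pd_F _ glue1]
      simp only [q0, dl, if_true]
      simp
      positivity
  · have e : ysq x = ysq x' := by simp [ysq, hy]
    have a1 := ysq_nonneg x
    have a2 := expNegInvGlue.nonneg (x 0)
    have a3 : 0 ≤ x 0 * ysq x ^ 2 := by positivity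
    have a4 : 0 ≤ x' 0 * ysq x ^ 2 := by positivity
    simp only [F, ← e] at he
    have b1 : ysq x = 0 := by
      have : x' 0 * ysq x ^ 2 = 0 := by linarith
      simpa [h2.ne'] using this
    have b2 : x 0 = 0 :=
      le_antisymm (expNegInvGlue.zero_iff_nonpos.1 (by linarith)) h1
    have b3 : ∀ j : Fin k, x j.succ = 0 := fun j => by
      have := (Finset.sum_eq_zero_iff_of_nonneg fun _ _ => sq_nonneg _).1 b1 j (Finset.mem_univ _)
      simpa using this
    have b4 : ∀ j : Fin k, x' j.succ = 0 := fun j => by rw [← hy, b3]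
    have c1 : ∀ i, pd (F (1 / 2) expNegInvGlue) i x = pd (F (-1 / 2) (fun _ => 0)) i x' := by
      intro i
      rw [pd_F _ glue1, pd_F _ h0]
      simp [q1, b3, b4, b1, ← e, b2]
    have c2 : ∀ i i', pd (pd (F (1 / 2) expNegInvGlue) i) i' x =
        pd (pd (F (-1 / 2) (fun _ => 0)) i) i' x' := by
      intro i i'
      rw [pd2_F _ glue1 (expNegInvGlue.hasDerivAt_polynomial_eval_inv_mul _) i i' x b3,
        pd2_F _ h0 h0 i i' x' b4]
      simp [b2]
    simp only [sigma, shape, c1, c2, le_refl]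
  · have : glue (k := k) (F (1 / 2) expNegInvGlue) (F (-1 / 2) (fun _ => 0)) =
        F (-1 / 2) (fun t => expNegInvGlue (-t)) := by
      funext x
      unfold glue
      split_ifs with h
      · simp [F, expNegInvGlue.zero_of_nonpos (neg_nonpos.2 h)]
      · have : ysq (Function.update x 0 (-x 0)) = ysq x := by
          simp [ysq]
        simp only [F, this, Function.update_self]
        ring
    rw [this]
    exact smooth_F _ (expNegInvGlue.contDiff.comp contDiff_neg)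
  · obtain ⟨δ, d1, d2, d3⟩ : ∃ δ : ℝ, 0 < δ ∧ δ < ε ∧ δ < 1 / (k + 1) :=
      ⟨min ε (1 / (k + 1)) / 2, by positivity,
        by have := min_le_left ε (1 / (k + 1) : ℝ); linarith,
        by have := min_le_right ε (1 / (k + 1) : ℝ); have : (0 : ℝ) < 1 / (k + 1) := by positivity
           linarith⟩
    have hk' : (1 : ℝ) ≤ k := by exact_mod_cast hk
    have d4 : δ * (k + 1) < 1 := (lt_div_iff₀ (by positivity)).1 d3
    have e : ysq (fun _ : Fin (k + 1) => δ) = k * δ ^ 2 := by simp [ysq]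
    have e1 : 0 < (k : ℝ) * δ ^ 2 := by positivity
    have d5 : δ < 1 := by nlinarith
    have e2 : (k : ℝ) * δ ^ 2 < 1 := by nlinarith
    refine ⟨fun _ => δ, ⟨d1, d5, by rw [e]; exact e2⟩,
      by rw [pi_norm_const, Real.norm_of_nonneg d1.le]; exact d2, ?_, ?_⟩
    · simp only [F, e]
      have : δ * (k * δ ^ 2) < 1 := by nlinarith
      nlinarith
    · rw [pd_F _ h0]
      simp only [q0, dl, if_true, e]
      have := pow_pos e1 2
      linarith

end Pool.Agent.Results.MP_4ba699_an.Counter
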